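import Pool.Agent.W705.JR.Cor

/-!
# Random braid words: exponentially small probability of every value of the Jones polynomial

Diagrams (starting library `Pool.Agent.H891R2.Jones.Diagram`): `Diagram P` (oriented link diagrams),
`Diagram.fPoly` (the normalised bracket `(-A^{-3})^{w(D)} ⟨D⟩`), `Outer m` (the part of an oriented
diagram outside a box through which `m` strands run, with arbitrary directions; neither planarity nor
closedness is required), `Outer.push` (draws one crossing in the box) and `Outer.close` (fills the rest of
the box with vertical strands); `ev 3 le_rfl` (`Jones.Final`) is the evaluation of Laurent polynomials at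
`A = i √((3 + √5) / 2)`, that is `A = i φ` with the golden ratio `φ`.

`Pool.Agent.W639.RB.Defs`: `Letter m = Bool × Fin (m - 1)` (the letters `σ_i^{±1}` of the braid group on
`m` strands), `diagram O w` (the diagram obtained by drawing the word `w : Fin n → Letter m` in the box of
`O`), `perm w` (the permutation of `w`); `Pool.Agent.W639.RB.Knots`: `IsKnot w` (the permutation of `w`
has a single cycle, i.e. the closure of the braid word `w` is a knot).  `Pool.Agent.W705.JR.Defs`:
`plat k b t` (the outside of the box for the plat closure of braids on `2 k` strands, the directions of the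
`k` arcs at the bottom and of the `k` arcs at the top being given by `b` and `t`).

Proof: with three colours (loop value `3 = -A^2 - A^{-2}` for `A = i φ`) the words act linearly on a finite
dimensional space `V`, and the diagrams with a given value correspond to the words which map a fixed vector
into a hyperplane depending on the outside and on the value.  The letters act on the set of the subspaces
of `V` which are not stable under the Temperley-Lieb algebra without almost invariant vectors in `ℓ²`
(ping-pong in `SL_2(ℂ)` for the subgroups `B_3` of neighbouring letters, whose action is hyperbolic for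
`A = i φ`), and an induction on the dimension of the subspaces gives the exponential bound.  The stable
subspaces are excluded by a computation modulo 2.
-/

set_option autoImplicit false

namespace Pool.Agent.Results.MP_42db45_gt.RandomBraidExponential

open Finset LaurentPolynomial Pool.Agent.H891R2.Jones Pool.Agent.W639.RB Pool.Agent.W705.JR

open Classical in
/-- **Exponential bound.**  Let `m ≥ 3`.

* Let `p > 0` be a probability vector on the letters `σ_i^{±1}` of the braid group on `m` strands.  There
  are `C` and `r < 1` such that for every outside `O` of a box with `m` strands, every complex number `z`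
  and every `n`, the probability that the diagram with a random word of length `n` in the box has a
  normalised bracket with the value `z` at `A = i φ` is at most `C r^n`.
* There are `C` and `r < 1` such that for all outsides `O`, all Laurent polynomials `f` (for instance
  `f = 1`) and all `n`, at most `C r^n (2m-2)^n` of the `(2m-2)^n` words of length `n` give a diagram with
  the normalised bracket `f`; and for all large `n ≡ m - 1` modulo 2 also among the words whose closure is
  a knot the proportion of those with normalised bracket `f` is at most `C r^n`.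
* For every `m'` there are `ε > 0`, `C` and `r < 1` such that for all outsides `O`, `O'` and all `n`, at
  most `C r^n (2m-2)^n` of the words of length `n` in the box of `O` have the normalised bracket of a
  diagram with a word of length at most `ε n` on `m'` strands in the box of `O'`.

For plat closures of words on `2 k ≥ 4` strands: at most `C r^n (4k-2)^n` of the words of length `n` give a
diagram which for some directions has the normalised bracket `f`. -/
theorem result : 
    (∀ m : ℕ, 3 ≤ m → 
      (∀ p : Letter m → ℝ, (∀ x, 0 < p x) → ∑ x, p x = 1 → ∃ C r : ℝ, 0 < r ∧ r < 1 ∧ 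
        ∀ (O : Outer m) (z : ℂ) (n : ℕ), 
          ∑ w : Fin n → Letter m, 
            (if ev 3 le_rfl (diagram O w).fPoly = z then ∏ j, p (w j) else 0) ≤ C * r ^ n) ∧
      (∃ (C r : ℝ) (l0 : ℕ), 0 < r ∧ r < 1 ∧ ∀ (O : Outer m) (f : ℤ[T;T⁻¹]) (n : ℕ), 
        ((univ.filter (fun w : Fin n → Letter m => (diagram O w).fPoly = f)).card : ℝ) ≤ 
          C * r ^ n * ((2 * (m - 1) : ℕ) : ℝ) ^ n ∧ 
        (l0 ≤ n → n % 2 = (m - 1) % 2 → 
          ((univ.filter (fun w : Fin n → Letter m => IsKnot w ∧ (diagram O w).fPoly = f)).card : ℝ) ≤ 
            C * r ^ n * (univ.filter (fun w : Fin n → Letter m => IsKnot w)).card)) ∧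
      (∀ m' : ℕ, ∃ ε C r : ℝ, 0 < ε ∧ 0 < r ∧ r < 1 ∧ ∀ (O : Outer m) (O' : Outer m') (n : ℕ), 
        ((univ.filter (fun w : Fin n → Letter m => ∃ j : ℕ, (j : ℝ) ≤ ε * n ∧ 
          ∃ w' : Fin j → Letter m', (diagram O' w').fPoly = (diagram O w).fPoly)).card : ℝ) ≤ 
            C * r ^ n * ((2 * (m - 1) : ℕ) : ℝ) ^ n)) ∧
    (∀ k : ℕ, 2 ≤ k → ∃ C r : ℝ, 0 < r ∧ r < 1 ∧ ∀ (f : ℤ[T;T⁻¹]) (n : ℕ), 
      ((univ.filter (fun w : Fin n → Letter (2 * k) => 
          ∃ b t : Fin k → Bool, (diagram (plat k b t) w).fPoly = f)).card : ℝ) ≤ 
        C * r ^ n * ((2 * (2 * k - 1) : ℕ) : ℝ) ^ n) := by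
  refine ⟨fun m hm => ⟨fun p hp hs => ?_, ?_, fun m' => ?_⟩, fun k hk => ?_⟩
  · obtain ⟨C, r, h0, h1, h⟩ := weights hm p hp hs
    exact ⟨C, r, h0, h1, fun O z n => h O z n⟩
  · obtain ⟨C, r, hC, h0, h1, h⟩ := count hm
    obtain ⟨C', l0, h'⟩ := knots' hm (by linarith) h0 h
    refine ⟨max C C', r, l0, h0, h1, fun O f n => ⟨?_, fun hn hpar => ?_⟩⟩
    · refine (h O f n).trans ?_
      gcongr
      exact le_max_left _ _
    · refine (h' O f n hn hpar).trans ?_
      gcongr
      exact le_max_right _ _
  · obtain ⟨C, r, hC, h0, h1, h⟩ := count hm
    exact shorter (by linarith) h0 h1 h m'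
  · obtain ⟨C, r, hC, h0, h1, h⟩ := count (m := 2 * k) (by omega)
    exact ⟨4 ^ k * C, r, h0, h1, fun f n => plats k h f n⟩

end Pool.Agent.Results.MP_42db45_gt.RandomBraidExponential
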