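import Pool.Agent.W639.RB.Knots

/-!
# The Jones polynomial of random braid words

Diagrams (starting library `Pool.Agent.H891R2.Jones.Diagram`): `Diagram P` (oriented link diagrams),
`Diagram.fPoly` (the normalised bracket `(-A^{-3})^{w(D)} ⟨D⟩`), `Outer m` (the part of an oriented
diagram outside a box through which `m` strands run), `Outer.push` (draws one crossing in the box) and
`Outer.close` (fills the rest of the box with vertical strands).

`Pool.Agent.W639.RB.Defs`: `Letter m = Bool × Fin (m - 1)` (the letters `σ_i^{±1}` of the braid group on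
`m` strands), `diagram O w` (the link diagram obtained by drawing the word `w : Fin n → Letter m` in the
box of `O`), `braidClosure m` (the outside of the box for the usual closure of braids), `perm w` (the
permutation of the braid word `w`).  `Pool.Agent.W639.RB.Knots`: `IsKnot w` (the permutation of `w` has a
single cycle, i.e. the closure of the braid word `w` is a knot).
-/

set_option autoImplicit false

namespace Pool.Agent.Results.MP_42db45_gt.RandomBraidWords

open Finset LaurentPolynomial Pool.Agent.H891R2.Jones Pool.Agent.W639.RB

theorem closure_closed (m : ℕ) : (braidClosure m).close.IsClosed := by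
  classical
  rw [closed_iff]
  have h : ∀ x : Fin m, (univ.filter (fun j : Fin m => j = x)).card = 1 := by
    intro x
    rw [Finset.filter_eq' univ x, if_pos (Finset.mem_univ _), Finset.card_singleton]
  refine ⟨fun x => ?_, fun x => ?_⟩
  · simp only [Sst, braidClosure, id, List.map_nil, List.sum_nil]
    simp <;> convert h x
  · simp only [Sst, braidClosure, Outer.rev, id, List.map_nil, List.sum_nil]
    simp <;> convert h x

open Classical in
/-- Let `m ≥ 2`.  Draw the `(2m-2)^n` words `w` of length `n` in the letters `σ_i^{±1}` of the braid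
group on `m` strands in a box of an oriented link diagram `O` through which `m` strands run in the same
direction (for instance, take the closures of the braids `w`).

* All these diagrams are closed oriented diagrams.
* For every Laurent polynomial `p ≠ 0` (for instance `p = 1`, the polynomial of the unknot) at most
  `(⌊m/2⌋ + 1) √(m (m-1) (2m-2)^{m(m-1)} / (2n)) (2m-2)^n` of them have the normalised bracket `p`.
* Also among the words of length `n` whose closure is a knot (single cycle permutations; a positive
  proportion of all words for `n ≡ m - 1` modulo 2), the proportion of those for which the diagram has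
  the normalised bracket `p` is at most `C / √n`, with `C` depending on `m` only. -/
theorem result (m : ℕ) (hm : 2 ≤ m) :
    ((∀ j, (braidClosure m).up j = true) ∧ (braidClosure m).close.IsClosed) ∧
    (∀ (O : Outer m), (∀ j, O.up j = true) → O.close.IsClosed → 
      ∀ (n : ℕ) (w : Fin n → Letter m), (diagram O w).IsClosed) ∧
    (∀ (O : Outer m), (∀ j, O.up j = true) → ∀ p : ℤ[T;T⁻¹], p ≠ 0 → ∀ n : ℕ, 0 < n → 
      ((univ.filter (fun w : Fin n → Letter m => (diagram O w).fPoly = p)).card : ℝ) ≤ 
        (m / 2 + 1 : ℕ) * Real.sqrt ((m * (m - 1) : ℕ) * (2 * (m - 1) : ℕ) ^ (m * (m - 1)) / (2 * n)) * 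
          (2 * (m - 1) : ℕ) ^ n) ∧
    (∃ l0 : ℕ, ∀ n, l0 ≤ n → n % 2 = (m - 1) % 2 → 
      (2 * (m - 1)) ^ n ≤ (2 * (m - 1)) ^ l0 * (univ.filter (fun w : Fin n → Letter m => IsKnot w)).card) ∧
    (∃ (C : ℝ) (l0 : ℕ), 0 < C ∧ ∀ (O : Outer m), (∀ j, O.up j = true) → 
      ∀ p : ℤ[T;T⁻¹], p ≠ 0 → ∀ n, 0 < n → l0 ≤ n → n % 2 = (m - 1) % 2 → 
      ((univ.filter (fun w : Fin n → Letter m => IsKnot w ∧ (diagram O w).fPoly = p)).card : ℝ) ≤ 
        C / Real.sqrt n * (univ.filter (fun w : Fin n → Letter m => IsKnot w)).card) := 
  ⟨⟨fun _ => rfl, closure_closed m⟩, 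
    fun O hO hc _ w => draw_closed (toL w) O (toL_mem w) hO hc,
    fun O hO p hp n hn => main hm O hO p hp n hn,
    many_knots hm, knots hm⟩

end Pool.Agent.Results.MP_42db45_gt.RandomBraidWords
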