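import Pool.Agent.W642.RS.Total
import Pool.Agent.W642.RS.Shadow
import Pool.Agent.W902.RS.Exist

/-!
# The Jones polynomial of randomly stacked curves and of random arc presentations

Definitions of the starting library `Pool.Agent.H832R2.JR.Defs`: `GaussWord N` (the shadow of a knot
diagram with `N` crossings, given by the order in which the crossings are passed), `fPoly G w` (the
normalised Kauffman bracket of the diagram with shadow `G` and crossing signs `w`), `Crosses G i j`
(the chords of the crossings `i` and `j` cross), `IsMatching`, `classes G` (the number of different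
nonempty sets `{j | Crosses G i j}`).

`Pool.Agent.W642.RS.Defs`: `Stack N n` (the Gauss word of a closed curve which is divided into `n`
consecutive arcs without self-crossings, any two of which cross at most once), `Stack.f D h` (the
normalised Kauffman bracket of the knot diagram in which the arc `i` of `D` lies at the height
`h i`), `EdgesCross r i j` and `IsPolygon r D` (the stack `D` describes the closed polygon with the
vertices `r 0, r 1, …, r (n - 1)`, numbers of points on a circle).
-/

set_option autoImplicit false

namespace Pool.Agent.Results.MP_42db45_gt.RandomStacking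

open Pool.Agent.H832R2.JR Pool.Agent.W642.RS LaurentPolynomial

open Classical in
/-- There is a constant `C` such that, for every Laurent polynomial `F`, for instance `F = 1`:

* (random crossings) if the shadow `G` of a knot diagram with `N` crossings has `m` pairwise disjoint
  pairs of crossing chords, or `t` classes of chords, then the proportion `P` of the `2 ^ N` choices of
  the crossings which give the bracket `F` satisfies `m P⁴ ≤ 32` and `t P⁴ ≤ 320`;
* (random stacking) if a closed curve with `N` crossings consists of `n` arcs, any two of which cross
  at most once, and the arcs are put at the heights `1, …, n` in a random order, then the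
  probability `P` that the knot has the bracket `F` satisfies `N ³ P⁴ ≤ C n⁵`;
* (random arc presentations, that is, grid diagrams) every closed polygon with vertices
  `r 0, …, r (n - 1)` on a circle is described by stacks, and for all permutations `r` except a
  proportion `C / n`, if the edges of the polygon are put at the heights `1, …, n` in a random
  order, the probability `P` that the knot has the bracket `F` satisfies `P⁴ ≤ C / n`. -/
theorem result :
    (∀ (N : ℕ) (G : GaussWord N) (F : ℤ[T;T⁻¹]),
      (∀ (m : ℕ) (u v : Fin m → Fin N), IsMatching G u v →
        m * (Finset.univ.filter fun w : Fin N → Bool => fPoly G w = F).card ^ 4 ≤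
          32 * (2 ^ N) ^ 4) ∧
      classes G * (Finset.univ.filter fun w : Fin N → Bool => fPoly G w = F).card ^ 4 ≤
        320 * (2 ^ N) ^ 4) ∧
    (∃ C : ℝ, 0 < C ∧ ∀ (N n : ℕ) (D : Stack N n) (F : ℤ[T;T⁻¹]),
      (N : ℝ) ^ 3 *
        ((Finset.univ.filter fun h : Equiv.Perm (Fin n) => D.f h = F).card : ℝ) ^ 4 ≤
          C * (n : ℝ) ^ 5 * (n.factorial : ℝ) ^ 4) ∧
    (∀ (n : ℕ) (r : Equiv.Perm (Fin n)), ∃ (N : ℕ) (D : Stack N n), IsPolygon r D) ∧
    (∃ C : ℝ, 0 < C ∧ ∀ n : ℕ, ∃ R : Finset (Equiv.Perm (Fin n)),
      (n : ℝ) * (R.card : ℝ) ≤ C * (n.factorial : ℝ) ∧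
      ∀ r ∉ R, ∀ (N : ℕ) (D : Stack N n), IsPolygon r D → ∀ F : ℤ[T;T⁻¹],
        (n : ℝ) *
          ((Finset.univ.filter fun h : Equiv.Perm (Fin n) => D.f h = F).card : ℝ) ^ 4 ≤
            C * (n.factorial : ℝ) ^ 4) :=
  ⟨fun N G F => fixed_shadow N G F, stack_main, Pool.Agent.W902.RS.exist, poly_main⟩

end Pool.Agent.Results.MP_42db45_gt.RandomStacking
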